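import Pool.Agent.QCS.Main

/-!
# Composite solutions of `C(qn, n) ≡ q^n (mod n)` are rare

Proof. Let `n = p m` be a composite solution with a prime factor `p > (log x)^B`. Then `p` divides
`C(qm, m) - q^m` (Lucas, Fermat). If `m ≤ x^(1/4)` there are few such `p`. Otherwise write
`m = a p + b`; for two solutions `b`, `b + h` with the same `a` and the same digit of `q b` the
quotient of the two congruences is a polynomial congruence of degree `q h` for `b` modulo `p`, and it
is not trivial, as its value at `-1/q` is not zero. So there are few `b`. The `n` without such a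
prime factor are few by Rankin's bound.
-/

set_option autoImplicit false

namespace Pool.Agent.Results.MP_b78341_nt.CompositeSolutions

open Finset Classical

/-- `n` is a `q`-solution: `n` divides `C(qn, n) - q^n`. -/
def IsSolution (q n : ℕ) : Prop := (n : ℤ) ∣ ((q * n).choose n : ℤ) - (q : ℤ) ^ n

/-- **Composite solutions are rarer than the primes by any power of `log x`.** -/
theorem result (q : ℕ) (hq : 2 ≤ q) (A : ℕ) : ∃ C : ℝ, ∀ x : ℕ, 2 ≤ x →
    ({n : ℕ | 2 ≤ n ∧ n ≤ x ∧ ¬ n.Prime ∧ IsSolution q n}.ncard : ℝ) ≤ C * (x / Real.log x ^ A) := by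
  obtain ⟨C, hC⟩ := Pool.Agent.QCS.composite_solutions hq A
  refine ⟨C, fun x hx => ?_⟩
  have h : {n : ℕ | 2 ≤ n ∧ n ≤ x ∧ ¬ n.Prime ∧ IsSolution q n} =
      (((Icc 2 x).filter fun n : ℕ => ¬ n.Prime ∧
        (n : ℤ) ∣ ((q * n).choose n : ℤ) - (q : ℤ) ^ n : Finset ℕ) : Set ℕ) := by
    ext n
    rw [mem_coe, mem_filter, mem_Icc]
    constructor
    · rintro ⟨h1, h2, h3, h4⟩
      exact ⟨⟨h1, h2⟩, h3, h4⟩
    · rintro ⟨⟨h1, h2⟩, h3, h4⟩
      exact ⟨h1, h2, h3, h4⟩
  rw [h, Set.ncard_coe_finset]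
  exact hC x hx

end Pool.Agent.Results.MP_b78341_nt.CompositeSolutions
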