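import Pool.Agent.QSol.Conv

/-!
MP_b78341_nt: which numbers `q ^ k * p` are `q`-solutions; every prime `q` has such a solution; the number of them
up to `x` is `O(x ^ (1/2 - 1/(64 q)))`, and for fixed `k` it is at most `q ^ (k + 1)`.
-/

set_option autoImplicit false

namespace Pool.Agent.Results.MP_b78341_nt.SparseSolutions

/-- `n` is a `q`-solution. -/
def IsSolution (q n : ℕ) : Prop := (n : ℤ) ∣ (((q * n).choose n : ℕ) : ℤ) - (q : ℤ) ^ n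

theorem result : ∀ q : ℕ, q.Prime →
    (∀ k p : ℕ, p.Prime → p ≠ q → (IsSolution q (q ^ k * p) ↔
      (p : ℤ) ∣ (((q ^ (k + 1)).choose (q ^ k) : ℕ) : ℤ) - (q : ℤ) ^ (q ^ k) ∧
        (q - 1) * k ≤ (Nat.digits q ((q - 1) * p)).sum)) ∧
    (∃ k p : ℕ, 1 ≤ k ∧ p.Prime ∧ p ≠ q ∧ IsSolution q (q ^ k * p)) ∧
    (q ≠ 2 → ∃ p : ℕ, p.Prime ∧ p ≠ q ∧ IsSolution q (q * p)) ∧
    (∃ C : ℝ, ∀ x : ℕ, 1 ≤ x →
      (({n : ℕ | n ≤ x ∧ (∃ k p : ℕ, 1 ≤ k ∧ p.Prime ∧ p ≠ q ∧ n = q ^ k * p) ∧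
          IsSolution q n}.ncard : ℕ) : ℝ) ≤ C * (x : ℝ) ^ ((1 : ℝ) / 2 - 1 / (64 * q))) ∧
    ∀ k : ℕ, 1 ≤ k →
      {p : ℕ | p.Prime ∧ IsSolution q (q ^ k * p)}.Finite ∧
      {p : ℕ | p.Prime ∧ IsSolution q (q ^ k * p)}.ncard ≤ q ^ (k + 1) ∧
      ∀ p : ℕ, p.Prime → IsSolution q (q ^ k * p) → q ^ k ≤ q * ((q - 1) * p) := by
  intro q hq
  refine ⟨?_, ?_, ?_, ?_, ?_⟩
  · intro k p hp hpq
    exact Pool.Agent.QSol.crit_iff hq hp hpq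
  · exact Pool.Agent.QSol.exists_sol hq
  · intro h2
    have h3 : 3 ≤ q := by
      have := hq.two_le
      omega
    obtain ⟨p, h4, h5, h6⟩ := Pool.Agent.QSol.exists_odd hq h3
    rw [pow_one] at h6
    exact ⟨p, h4, h5, h6⟩
  · exact ⟨(q : ℝ) ^ 2 + 2 ^ (8 * q + 5), fun x hx => Pool.Agent.QSol.main hq hx⟩
  · intro k hk
    obtain ⟨h1, h2⟩ := Pool.Agent.QSol.fixed_k hq hk
    exact ⟨h1, h2, fun p hp h => Pool.Agent.QSol.large_p hq hk hp h⟩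

end Pool.Agent.Results.MP_b78341_nt.SparseSolutions
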